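import Pool.Agent.J4.H6.OC.Two
import Pool.Agent.J4.H26.FinalF
import Pool.Agent.N993.CP.Base

/-!
# Reduction of Hodge characters to characteristic `p`
-/

set_option autoImplicit false
set_option linter.unusedSectionVars false

namespace Pool.Agent.J4.H6.OC

open Finset Pool.Agent.H916R2 Pool.Agent.H916T Pool.Agent.H916U Pool.Agent.H916Z Pool.Agent.H916Q
  Pool.Agent.H916Y Pool.Agent.TH540 Pool.Agent.N214.FT Pool.Agent.J4.H6.SI Pool.Agent.Y2.Cv
  Pool.Agent.N993.CP

variable {p : ℕ}

/-- surfaces, products of curves, standard characters -/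
def WBase (p M : ℕ) (t : Multiset (ZMod M)) : Prop :=
  SurfaceTate p M t ∨ CurveProductTate p M t ∨ ∃ q : ℕ, q.Prime ∧ q ∣ M ∧ Standard q M t

/-- the standard characters for the prime two -/
lemma surface_two {m : ℕ} [NeZero m] (hpm : p.Coprime m) (h2m : 2 ∣ m) {a : ZMod m}
    (ha : 2 * a ≠ 0) :
    SurfaceTate p m {a, a + ((m / 2 : ℕ) : ZMod m), -(2 * a), ((m / 2 : ℕ) : ZMod m)} := by
  obtain ⟨d, hd⟩ := h2m
  have hd' : m / 2 = d := by omega
  have hm := NeZero.pos m
  rw [hd']
  have h2d : 2 * (d : ZMod m) = 0 := by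
    have h1 : ((2 * d : ℕ) : ZMod m) = 0 := by rw [← hd]; simp
    push_cast at h1
    exact h1
  have hd0 : (d : ZMod m) ≠ 0 := by
    intro h
    rw [ZMod.natCast_eq_zero_iff] at h
    have := Nat.le_of_dvd (by omega) h
    omega
  refine surface_of hpm ?_ ?_ (neg_ne_zero.mpr ha) hd0 ?_ ?_
  · rintro rfl
    exact ha (mul_zero _)
  · intro h
    apply ha
    linear_combination 2 * h - h2d
  · linear_combination h2d
  · intro t
    have hV := DF_W (p := p) hpm t
    have e1 := hV.dist 2 d hd.symm a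
    rw [sum_range_succ, sum_range_one] at e1
    push_cast at e1
    simp only [zero_mul, add_zero, one_mul] at e1
    have e2 := hV.ng (2 * a)
    have e3 := hV.ng (d : ZMod m)
    have e4 : -(d : ZMod m) = d := by linear_combination -h2d
    rw [e4] at e3
    beta_reduce at e1 e2 e3
    linarith

lemma conv {m : ℕ} [NeZero m] (hpm : p.Coprime m) {B : Multiset (ZMod m) → Prop}
    {B' : Multiset (ZMod m) → Prop} (hB : ∀ s, B s → B' s)
    (hS : ∀ s, SurfaceTate p m s → B' s)
    (hst : ∀ q s, q.Prime → q ∣ m → Standard q m s → B' s)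
    {s : Multiset (ZMod m)} (hs : H916R2.Generated m B s) : H916T.Generated m B' s := by
  induction hs with
  | ofBase s hs => exact H916T.Generated.ofBase _ (hB s hs)
  | pair a ha => exact H916T.Generated.pair a ha
  | standard q hq hq2 hqm a ha =>
    refine H916T.Generated.ofBase _ (hst q _ hq hqm ⟨?_, a, ha, rfl⟩)
    exact hq.odd_of_ne_two hq2
  | standardTwo h2m a ha =>
    exact H916T.Generated.ofBase _ (hS _ (surface_two hpm h2m ha))
  | join s t _ _ ihs iht => exact H916T.Generated.join _ _ ihs iht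
  | cancel a s _ ih => exact H916T.Generated.cancel _ _ ih

lemma gen_bind {M : ℕ} {B B' : Multiset (ZMod M) → Prop}
    (hB : ∀ s, B s → H916T.Generated M B' s) {s : Multiset (ZMod M)}
    (hs : H916T.Generated M B s) : H916T.Generated M B' s := by
  induction hs with
  | ofBase s hs => exact hB s hs
  | pair a ha => exact H916T.Generated.pair a ha
  | join s t _ _ ihs iht => exact H916T.Generated.join _ _ ihs iht
  | cancel a s _ ih => exact H916T.Generated.cancel _ _ ih

/-- two primes which form a known pair with two -/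
lemma known_two {q m : ℕ} (hm : m = 4 * q) (hq : q = 11 ∨ q = 13) :
    ∀ T ⊆ J4.H26.relPrimes m, Even T.card → T.Nonempty → T ∈ J4.H26.KnownPairs := by
  have key : ∀ T ⊆ J4.H26.relPrimes m, T ∈ ({2, q} : Finset ℕ).powerset := by
    intro T hT
    rw [mem_powerset]
    intro r hr
    have h1 := hT hr
    have h2 := J4.H26.PP_prime h1
    have h3 := Nat.dvd_of_mem_primeFactors (mem_filter.mp h1).1
    have hqp : q.Prime := by rcases hq with rfl | rfl <;> norm_num
    rw [mem_insert, mem_singleton]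
    rw [hm, h2.dvd_mul] at h3
    rcases h3 with h | h
    · left
      have h4 : r ∣ 2 ^ 2 := h
      exact (Nat.prime_dvd_prime_iff_eq h2 Nat.prime_two).mp (h2.dvd_of_dvd_pow h4)
    · right
      exact (Nat.prime_dvd_prime_iff_eq h2 hqp).mp h
  intro T hT h1 h2
  have h3 := key T hT
  have d11 : ∀ T ∈ ({2, 11} : Finset ℕ).powerset, Even T.card → T.Nonempty →
      T ∈ J4.H26.KnownPairs := by decide
  have d13 : ∀ T ∈ ({2, 13} : Finset ℕ).powerset, Even T.card → T.Nonempty →
      T ∈ J4.H26.KnownPairs := by decide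
  rcases hq with rfl | rfl
  · exact d11 T h3 h1 h2
  · exact d13 T h3 h1 h2

lemma cls_gen {q : ℕ} (hq : q = 11 ∨ q = 13) :
    H916R2.Generated (4 * q) (SurfaceOrCurveProduct (4 * q)) (cls q) := by
  have hqp : q.Prime := by rcases hq with rfl | rfl <;> norm_num
  have hF : Fact q.Prime := ⟨hqp⟩
  have h35 : q % 8 = 3 ∨ q % 8 = 5 := by rcases hq with rfl | rfl <;> norm_num
  have h4q : 0 < 4 * q := by have := hqp.pos; omega
  have hz : NeZero (4 * q) := ⟨h4q.ne'⟩
  have hH := (cls_spec (q := q) h35).1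
  have hne : cls q ≠ 0 := by
    intro h
    have h1 := cls_card q
    rw [h, Multiset.card_zero] at h1
    omega
  have h1 := J4.H26.main_three (fun _ => 0) (4 * q) h4q (by
    intro T hT h1 h2 h3
    exact absurd (known_two rfl hq T hT h1 h2) h3) (cls q) hH hne
  have key : ∀ M : ℕ, J4.H26.ev (4 * q) = M → NeZero M →
      H916R2.Generated M (SurfaceOrCurveProduct M) ((cls q).map (iota (M / (4 * q)) :
        ZMod (4 * q) → ZMod M)) := by
    intro M hM _
    subst hM
    refine N993.Generated.mono ?_ h1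
    rintro u (hu | ⟨T, hT, h2, h3, h4, _⟩)
    · exact hu
    · exact absurd (known_two rfl hq T hT h2 h3) h4
  have hev : J4.H26.ev (4 * q) = 4 * q := by
    unfold J4.H26.ev
    rw [if_pos (Dvd.dvd.mul_right (by norm_num) q)]
  have h2 := key (4 * q) hev hz
  rw [Nat.div_self h4q, self_iota] at h2
  exact h2

lemma cls_gen_p {q k M : ℕ} (hq : q = 11 ∨ q = 13) (hM0 : 0 < M) (hpM : p.Coprime M)
    (hk : k * (4 * q) = M) :
    H916T.Generated M (WBase p M) ((cls q).map (iota k : ZMod (4 * q) → ZMod M)) := by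
  have hqp : q.Prime := by rcases hq with rfl | rfl <;> norm_num
  have hz : NeZero (4 * q) := ⟨by have := hqp.pos; omega⟩
  have hzM : NeZero M := ⟨hM0.ne'⟩
  have h1 := gen_lift (k := k) (m0 := 4 * q) (m := M) hk (B := SurfaceOrCurveProduct (4 * q))
    (B' := SurfaceOrCurveProduct M) (by
      intro s hs
      rcases hs with ⟨h1, h2⟩ | h1
      · exact Or.inl ⟨h1.iota hk, by rw [Multiset.card_map]; exact h2⟩
      · exact Or.inr (h1.lift hk)) (cls_gen hq)
  refine conv hpM ?_ (fun s hs => Or.inl hs) (fun r s hr hrM hs => Or.inr (Or.inr ⟨r, hr, hrM, hs⟩)) h1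
  rintro s (⟨h2, h3⟩ | ⟨h2, s₁, s₂, h4, h5, h6⟩)
  · exact Or.inl ⟨hodge_tate hpM h2, h3⟩
  · exact Or.inr (Or.inl ⟨hodge_tate hpM h2, s₁, s₂, h4, h5, h6⟩)

/-- **The Tate conjecture for the degrees with prime divisors two, three, and eleven or thirteen.** -/
theorem unconditional {q m : ℕ} (hp : p.Prime) (hq : q = 11 ∨ q = 13) (hm : 0 < m)
    (hpm : p.Coprime m) (hpr : ∀ r, r.Prime → r ∣ m → r = 2 ∨ r = 3 ∨ r = q)
    {s : Multiset (ZMod m)} (hs : IsTate p m s) (hne : s ≠ 0) :
    ∃ N : ℕ, 0 < N ∧ p.Coprime N ∧ ∀ M : ℕ, N * m = M →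
      H916T.Generated M (WBase p M) (s.map (iota N : ZMod m → ZMod M)) := by
  have h1 : ∃ N : ℕ, 0 < N ∧ p.Coprime N ∧ ∀ M : ℕ, N * m = M →
      H916T.Generated M (QBase p q M) (s.map (iota N : ZMod m → ZMod M)) := by
    rcases hq with rfl | rfl
    · exact with_eleven hp hm hpm hpr hs hne
    · exact with_thirteen hp hm hpm hpr hs hne
  obtain ⟨N, hN, hpN, H⟩ := h1
  refine ⟨N, hN, hpN, fun M hM => ?_⟩
  have hM0 : 0 < M := by rw [← hM]; exact Nat.mul_pos hN hm
  have hpM : p.Coprime M := by rw [← hM]; exact Nat.Coprime.mul_right hpN hpm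
  refine gen_bind ?_ (H M hM)
  rintro t ((ht | ht) | ⟨k, hk, rfl⟩)
  · exact H916T.Generated.ofBase _ (Or.inl ht)
  · exact H916T.Generated.ofBase _ (Or.inr (Or.inr ht))
  · exact cls_gen_p hq hM0 hpM hk

end Pool.Agent.J4.H6.OC
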