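import Pool.Agent.J4.H6.SI.RelA

/-!
# One explicit Hodge character for every prime congruent to three or five modulo eight
-/

set_option autoImplicit false
set_option linter.unusedSectionVars false

namespace Pool.Agent.J4.H6.OC

open Finset Pool.Agent.H916R2 Pool.Agent.H916T Pool.Agent.H916U Pool.Agent.H916Z Pool.Agent.H916Q
  Pool.Agent.TH540 Pool.Agent.J4.H6.SI

/-- The residue modulo `4 q` which is congruent to `1` modulo `4` and to `x` modulo `q`. -/
def one4 (q x : ℕ) : ZMod (4 * q) := (q : ZMod (4 * q)) ^ 2 + (1 - (q : ZMod (4 * q)) ^ 2) * x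

/-- The residues modulo `4 q` which are congruent to `1` modulo `4` and to some `x`, `1 ≤ x < q / 2`,
modulo `q`; the residues `- 4 x` with `q / 4 < x < q / 2`; the residue `2 q`; and `- q` if `q % 4 = 3`. -/
def cls (q : ℕ) : Multiset (ZMod (4 * q)) :=
  (Finset.Icc 1 ((q - 1) / 2)).val.map (fun x => one4 q x) +
    ((Finset.Icc 1 ((q - 1) / 2)).filter (fun x => (q - 1) / 2 < 2 * x)).val.map
      (fun x : ℕ => -(4 * (x : ZMod (4 * q)))) +
    {2 * (q : ZMod (4 * q))} + if q % 4 = 3 then {-(q : ZMod (4 * q))} else 0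

section half

variable {A : Type*} [AddCommGroup A]

/-- doubling on a half system -/
lemma half_sum {h : ℕ} (H : ℤ → A) (hodd : ∀ n, H (2 * (h : ℤ) + 1 - n) = - H n) :
    ∑ n ∈ Icc 1 h, H (n : ℤ) =
      ∑ y ∈ Icc 1 h, (if h < 2 * y then - H (2 * (y : ℤ)) else H (2 * (y : ℤ))) := by
  symm
  refine Finset.sum_bij' (fun y _ => if h < 2 * y then 2 * h + 1 - 2 * y else 2 * y)
    (fun n _ => if n % 2 = 0 then n / 2 else (2 * h + 1 - n) / 2) ?_ ?_ ?_ ?_ ?_
  · intro y hy
    rw [mem_Icc] at hy ⊢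
    split_ifs <;> omega
  · intro n hn
    rw [mem_Icc] at hn ⊢
    split_ifs <;> omega
  · intro y hy
    rw [mem_Icc] at hy
    split_ifs <;> omega
  · intro n hn
    rw [mem_Icc] at hn
    split_ifs <;> omega
  · intro y hy
    rw [mem_Icc] at hy
    split_ifs with h1
    · rw [← hodd]
      congr 1
      omega
    · congr 1

lemma half_diff {h : ℕ} (H : ℤ → A) (hodd : ∀ n, H (2 * (h : ℤ) + 1 - n) = - H n) :
    ∑ y ∈ Icc 1 h, (H (2 * (y : ℤ)) - H (y : ℤ)) =
      ∑ y ∈ (Icc 1 h).filter (fun y => h < 2 * y), (H (2 * (y : ℤ)) + H (2 * (y : ℤ))) := by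
  rw [sum_sub_distrib, half_sum H hodd, ← sum_sub_distrib, sum_filter]
  refine sum_congr rfl fun y _ => ?_
  split_ifs
  · abel
  · abel

/-- a sum over a period -/
lemma sum_period {h : ℕ} (F : ℤ → A) (hp : ∀ n, F (n + (2 * (h : ℤ) + 1)) = F n) :
    ∑ i ∈ range (2 * h + 1), F (i : ℤ) = F 0 + ∑ n ∈ Icc 1 h, (F (n : ℤ) + F (-(n : ℤ))) := by
  have h1 : range (2 * h + 1) = insert 0 (Icc 1 h ∪ Icc (h + 1) (2 * h)) := by
    ext n
    simp only [mem_range, mem_insert, mem_union, mem_Icc]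
    omega
  have h2 : ∑ n ∈ Icc (h + 1) (2 * h), F (n : ℤ) = ∑ n ∈ Icc 1 h, F (-(n : ℤ)) := by
    refine Finset.sum_bij' (fun n _ => 2 * h + 1 - n) (fun n _ => 2 * h + 1 - n) ?_ ?_ ?_ ?_ ?_
    · intro n hn
      rw [mem_Icc] at hn ⊢
      omega
    · intro n hn
      rw [mem_Icc] at hn ⊢
      omega
    · intro n hn
      rw [mem_Icc] at hn
      omega
    · intro n hn
      rw [mem_Icc] at hn
      omega
    · intro n hn
      rw [mem_Icc] at hn
      rw [← hp (-(((2 * h + 1 - n : ℕ)) : ℤ))]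
      congr 1
      omega
  rw [h1, sum_insert, sum_union, h2, sum_add_distrib]
  · push_cast
    rfl
  · rw [disjoint_left]
    intro n h3 h4
    rw [mem_Icc] at h3 h4
    omega
  · rw [mem_union, mem_Icc, mem_Icc]
    omega

end half

section rel

variable {q : ℕ} [Fact q.Prime] [NeZero (4 * q)] {V : ZMod (4 * q) → ℤ}

lemma zq (a : ℕ) (h : 4 * q ∣ a) : (a : ZMod (4 * q)) = 0 := (ZMod.natCast_eq_zero_iff _ _).mpr h

lemma q_sq (hq : q % 2 = 1) : (q : ZMod (4 * q)) * (1 - (q : ZMod (4 * q)) ^ 2) = 0 := by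
  obtain ⟨k, hk⟩ : ∃ k, q = 2 * k + 1 := ⟨q / 2, by omega⟩
  have h1 : (((q : ℤ) * (1 - (q : ℤ) ^ 2) : ℤ) : ZMod (4 * q)) = 0 := by
    rw [ZMod.intCast_zmod_eq_zero_iff_dvd]
    have h2 : (q : ℤ) = 2 * k + 1 := by exact_mod_cast hk
    push_cast
    rw [h2]
    exact ⟨-(k * (k + 1)), by ring⟩
  push_cast at h1
  exact h1

lemma four_sq : 4 * (q : ZMod (4 * q)) = 0 := by
  have h := zq (q := q) (4 * q) dvd_rfl
  push_cast at h
  exact h

lemma two_one (hq : q % 2 = 1) : 2 * (q : ZMod (4 * q)) ^ 2 + 2 * (q : ZMod (4 * q)) = 0 := by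
  obtain ⟨k, hk⟩ : ∃ k, q + 1 = 2 * k := ⟨(q + 1) / 2, by omega⟩
  have h1 : ((2 * q * (q + 1) : ℕ) : ZMod (4 * q)) = 0 := by
    apply zq
    rw [hk]
    exact ⟨k, by ring⟩
  push_cast at h1
  linear_combination h1

/-- the relation -/
theorem cls_rel (hV : DF 1 V) (hq2 : q ≠ 2) : ((cls q).map V).sum = 0 := by
  have hq := (Fact.out : q.Prime)
  have hodd : q % 2 = 1 := hq.eq_two_or_odd.resolve_left hq2
  set h := (q - 1) / 2 with hh
  have hq1 : q = 2 * h + 1 := by omega
  set Q : ZMod (4 * q) := (q : ZMod (4 * q)) with hQ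
  set v : ZMod (4 * q) := 1 - Q ^ 2 with hv'
  have hv : (q : ZMod (4 * q)) * v = 0 := q_sq hodd
  have h4 : 4 * Q = 0 := four_sq
  have h2Q : 2 * Q ^ 2 + 2 * Q = 0 := two_one hodd
  have d2 : ∀ a, V a + V (a + 2 * Q) = V (2 * a) := by
    intro a
    have := hV.dist 2 (2 * q) (by ring) a
    rw [sum_range_succ, sum_range_one] at this
    push_cast at this
    simp only [zero_mul, add_zero, one_mul] at this
    exact this
  have h2h : (2 : ZMod q) * (h : ZMod q) + 1 = 0 := by
    have h3 : ((2 * h + 1 : ℕ) : ZMod q) = 0 := (ZMod.natCast_eq_zero_iff _ _).mpr (by rw [← hq1])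
    push_cast at h3
    exact h3
  -- the functions
  set P : ZMod q → ℤ := fun y => V (Q ^ 2 + ph v hv y) with hP
  set g : ZMod q → ℤ := fun y => V (ph v hv y) with hg
  have gneg : ∀ y, g (-y) = - g y := by
    intro y
    simp only [hg, map_neg]
    exact hV.ng _
  have r2 : ∀ y : ZMod q, P y - P (-y) = g (4 * y) - g (2 * y) := by
    intro y
    simp only [hP, hg]
    rw [ph_four, ph_two, map_neg]
    have e1 := d2 (Q ^ 2 + ph v hv y)
    have e2 := d2 (2 * ph v hv y)
    have e3 : Q ^ 2 + ph v hv y + 2 * Q = -(Q ^ 2 + -ph v hv y) := by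
      linear_combination h2Q
    have e4 : 2 * (Q ^ 2 + ph v hv y) = 2 * ph v hv y + 2 * Q := by
      linear_combination h2Q - h4
    have e5 : 2 * (2 * ph v hv y) = 4 * ph v hv y := by ring
    rw [e3, hV.ng, e4] at e1
    rw [e5] at e2
    linarith
  have r3 : ∑ y : ZMod q, P y = V (Q * Q ^ 2) := by
    have h1 := hV.dist q 4 (by ring) (Q ^ 2)
    have hF4 : (4 : ZMod q) ≠ 0 := by
      intro h0
      have h2 : ((4 : ℕ) : ZMod q) = 0 := by push_cast; exact h0
      rw [ZMod.natCast_eq_zero_iff] at h2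
      have h3 : q ∣ 2 ^ 2 := h2
      exact hq2 ((Nat.prime_dvd_prime_iff_eq hq Nat.prime_two).mp (hq.dvd_of_dvd_pow h3))
    have h2 : ∀ i ∈ range q, V (Q ^ 2 + (i : ZMod (4 * q)) * ((4 : ℕ) : ZMod (4 * q))) =
        P (4 * (i : ZMod q)) := by
      intro i _
      simp only [hP]
      congr 2
      rw [ph_four, ph_nat]
      push_cast
      simp only [hv']
      linear_combination ((i : ZMod (4 * q)) * Q) * h4
    rw [sum_congr rfl h2, sum_zmod hq.pos (fun y => P (4 * y))] at h1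
    rw [← h1]
    symm
    exact Fintype.sum_equiv (Equiv.mulLeft₀ (4 : ZMod q) hF4) _ _ (fun y => rfl)
  have r3' : ∑ y : ZMod q, P y = P 0 + ∑ n ∈ Icc 1 h, (P ((n : ℤ) : ZMod q) + P (((-(n : ℤ)) : ℤ) : ZMod q)) := by
    have h1 := sum_period (h := h) (fun n : ℤ => P (n : ZMod q)) (by
      intro n
      congr 1
      push_cast
      rw [h2h, add_zero])
    rw [← hq1] at h1
    rw [← sum_zmod hq.pos P]
    push_cast at h1 ⊢
    exact h1
  have P0 : P 0 = V (Q ^ 2) := by simp only [hP, map_zero, add_zero]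
  have r4 : V (Q * Q ^ 2) = P 0 - (if q % 4 = 3 then 2 * P 0 else 0) := by
    obtain ⟨k, hk⟩ : ∃ k, q = 4 * k + 1 ∨ q = 4 * k + 3 := ⟨q / 4, by omega⟩
    rcases hk with hk | hk
    · rw [if_neg (by omega), sub_zero, P0]
      congr 1
      have h5 : ((q ^ 2 * (4 * k) : ℕ) : ZMod (4 * q)) = 0 := by
        apply zq
        exact ⟨q * k, by ring⟩
      have h6 : Q - 1 = 4 * (k : ZMod (4 * q)) := by
        have h7 : ((q : ℤ) : ZMod (4 * q)) = ((4 * (k : ℤ) + 1 : ℤ) : ZMod (4 * q)) := by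
          congr 1
          exact_mod_cast hk
        push_cast at h7
        rw [hQ]
        linear_combination h7
      push_cast at h5
      rw [← hQ] at h5
      linear_combination Q ^ 2 * h6 + h5
    · rw [if_pos (by omega), P0]
      have h8 : Q * Q ^ 2 = - Q ^ 2 := by
        have h5 : ((q ^ 2 * (4 * (k + 1)) : ℕ) : ZMod (4 * q)) = 0 := by
          apply zq
          exact ⟨q * (k + 1), by ring⟩
        have h6 : Q + 1 = 4 * ((k : ZMod (4 * q)) + 1) := by
          have h7 : ((q : ℤ) : ZMod (4 * q)) = ((4 * (k : ℤ) + 3 : ℤ) : ZMod (4 * q)) := by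
            congr 1
            exact_mod_cast hk
          push_cast at h7
          rw [hQ]
          linear_combination h7
        push_cast at h5
        rw [← hQ] at h5
        linear_combination Q ^ 2 * h6 + h5
      rw [h8, hV.ng]
      ring
  have r5 : ∑ n ∈ Icc 1 h, (P ((n : ℤ) : ZMod q) + P (((-(n : ℤ)) : ℤ) : ZMod q)) =
      2 * ∑ n ∈ Icc 1 h, P (n : ZMod q) -
        ∑ n ∈ Icc 1 h, (g (4 * (n : ZMod q)) - g (2 * (n : ZMod q))) := by
    rw [mul_sum, ← sum_sub_distrib]
    refine sum_congr rfl fun n _ => ?_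
    have := r2 (n : ZMod q)
    push_cast
    linarith
  have r6 : ∑ n ∈ Icc 1 h, (g (4 * (n : ZMod q)) - g (2 * (n : ZMod q))) =
      2 * ∑ y ∈ (Icc 1 h).filter (fun y => h < 2 * y), g (4 * (y : ZMod q)) := by
    have h1 := half_diff (h := h) (fun n : ℤ => g (2 * (n : ZMod q))) (by
      intro n
      rw [← gneg]
      congr 1
      push_cast
      linear_combination (2 : ZMod q) * h2h)
    rw [mul_sum]
    have e : ∀ y : ℕ, (2 : ZMod q) * (((2 * (y : ℤ) : ℤ)) : ZMod q) = 4 * (y : ZMod q) := by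
      intro y; push_cast; ring
    simp only [e, Int.cast_natCast] at h1
    rw [h1]
    exact sum_congr rfl fun y _ => by ring
  have key : ∑ n ∈ Icc 1 h, P (n : ZMod q) -
      ∑ y ∈ (Icc 1 h).filter (fun y => h < 2 * y), g (4 * (y : ZMod q)) +
      (if q % 4 = 3 then P 0 else 0) = 0 := by
    rw [r5, r6] at r3'
    rw [r3', ] at r3
    rw [r4] at r3
    split_ifs at r3 ⊢ <;> linarith
  -- the sum
  have f1 : ∀ x : ℕ, V (one4 q x) = P (x : ZMod q) := by
    intro x
    simp only [hP, one4]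
    rw [ph_nat]
    congr 1
    simp only [hv', hQ]
    ring
  have f2 : ∀ x : ℕ, V (-(4 * (x : ZMod (4 * q)))) = - g (4 * (x : ZMod q)) := by
    intro x
    simp only [hg]
    rw [ph_four, ph_nat, hV.ng]
    congr 2
    simp only [hv']
    linear_combination ((x : ZMod (4 * q)) * Q) * h4
  have f3 : V (2 * Q) = 0 := by
    have h1 := hV.ng (2 * Q)
    have h2 : -(2 * Q) = 2 * Q := by linear_combination -h4
    rw [h2] at h1
    omega
  have f4 : (if q % 4 = 3 then V (-Q) else 0) = if q % 4 = 3 then P 0 else 0 := by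
    split_ifs with h3
    · rw [P0]
      congr 1
      obtain ⟨k, hk⟩ : ∃ k, q = 4 * k + 3 := ⟨q / 4, by omega⟩
      have h5 : ((q * (4 * (k + 1)) : ℕ) : ZMod (4 * q)) = 0 := by
        apply zq
        exact ⟨k + 1, by ring⟩
      have h6 : Q + 1 = 4 * ((k : ZMod (4 * q)) + 1) := by
        have h7 : ((q : ℤ) : ZMod (4 * q)) = ((4 * (k : ℤ) + 3 : ℤ) : ZMod (4 * q)) := by
          congr 1
          exact_mod_cast hk
        push_cast at h7
        rw [hQ]
        linear_combination h7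
      push_cast at h5
      rw [← hQ] at h5
      linear_combination -Q * h6 - h5
    · rfl
  have f5 : ((if q % 4 = 3 then {-(q : ZMod (4 * q))} else 0 : Multiset (ZMod (4 * q))).map V).sum =
      if q % 4 = 3 then V (-Q) else 0 := by
    split_ifs <;> simp [hQ]
  unfold cls
  rw [Multiset.map_add, Multiset.map_add, Multiset.map_add, Multiset.sum_add, Multiset.sum_add,
    Multiset.sum_add, Multiset.map_map, Multiset.map_map, f5, f4, Multiset.map_singleton,
    Multiset.sum_singleton, ← hQ, f3, ← hh]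
  have g1 : ((Icc 1 h).val.map (V ∘ fun x => one4 q x)).sum = ∑ n ∈ Icc 1 h, P (n : ZMod q) := by
    show ∑ n ∈ Icc 1 h, V (one4 q n) = _
    exact sum_congr rfl fun n _ => f1 n
  have g2 : (((Icc 1 h).filter (fun x => h < 2 * x)).val.map
      (V ∘ fun x : ℕ => -(4 * (x : ZMod (4 * q))))).sum =
      - ∑ y ∈ (Icc 1 h).filter (fun y => h < 2 * y), g (4 * (y : ZMod q)) := by
    show ∑ n ∈ (Icc 1 h).filter (fun y => h < 2 * y), V (-(4 * (n : ZMod (4 * q)))) = _
    rw [← sum_neg_distrib]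
    exact sum_congr rfl fun n _ => f2 n
  rw [g1, g2]
  linarith

end rel

section props

variable {q : ℕ}

/-- reduction modulo four -/
def r4 (q : ℕ) : ZMod (4 * q) →+* ZMod 4 := ZMod.castHom (Dvd.intro q rfl) (ZMod 4)

lemma r4_q (hodd : q % 2 = 1) : r4 q (q : ZMod (4 * q)) ^ 2 = 1 ∧ r4 q (q : ZMod (4 * q)) ≠ 0 := by
  rw [map_natCast]
  have h1 : (q : ZMod 4) = ((q % 4 : ℕ) : ZMod 4) := by
    rw [ZMod.natCast_mod]
  rw [h1]
  rcases (by omega : q % 4 = 1 ∨ q % 4 = 3) with h | h <;> rw [h] <;> decide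

lemma even_order [NeZero (4 * q)] {a : ZMod (4 * q)} (h : r4 q a ≠ 0) : 2 ∣ addOrderOf a := by
  by_contra hodd
  apply h
  have h1 : addOrderOf a • a = 0 := addOrderOf_nsmul_eq_zero a
  have h2 := congrArg (r4 q) h1
  rw [map_nsmul, map_zero, nsmul_eq_mul] at h2
  have h3 : ((addOrderOf a : ℕ) : ZMod 4) = ((addOrderOf a % 4 : ℕ) : ZMod 4) := by
    rw [ZMod.natCast_mod]
  rw [h3] at h2
  generalize r4 q a = b at h2 ⊢
  rcases (by omega : addOrderOf a % 4 = 1 ∨ addOrderOf a % 4 = 3) with h4 | h4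
  · rw [h4] at h2; revert b; decide
  · rw [h4] at h2; revert b; decide

lemma not_supp [NeZero (4 * q)] (hq2 : q ≠ 2) {a : ZMod (4 * q)} (h : r4 q a ≠ 0) :
    ¬ Supp {q} a := by
  intro h1
  have h2 := even_order h
  have h3 : 2 ∈ (addOrderOf a).primeFactors :=
    Nat.mem_primeFactors.mpr ⟨Nat.prime_two, h2, (addOrderOf_pos a).ne'⟩
  unfold Supp at h1
  rw [h1, mem_singleton] at h3
  exact hq2 h3.symm

lemma r4_one4 (hodd : q % 2 = 1) (x : ℕ) : r4 q (one4 q x) ≠ 0 := by
  unfold one4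
  rw [map_add, map_mul, map_sub, map_one, map_pow, (r4_q hodd).1, sub_self, zero_mul, add_zero]
  decide

lemma r4_two (hodd : q % 2 = 1) : r4 q (2 * (q : ZMod (4 * q))) ≠ 0 := by
  rw [map_mul, map_natCast, map_ofNat]
  have h1 : (q : ZMod 4) = ((q % 4 : ℕ) : ZMod 4) := by
    rw [ZMod.natCast_mod]
  rw [h1]
  rcases (by omega : q % 4 = 1 ∨ q % 4 = 3) with h | h <;> rw [h] <;> decide

lemma r4_neg (hodd : q % 2 = 1) : r4 q (-(q : ZMod (4 * q))) ≠ 0 := by
  rw [map_neg, neg_ne_zero]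
  exact (r4_q hodd).2

lemma order_four [Fact q.Prime] [NeZero (4 * q)] {x : ℕ} (h1 : 1 ≤ x)
    (h2 : x ≤ (q - 1) / 2) :
    -(4 * (x : ZMod (4 * q))) ≠ 0 ∧ Supp {q} (-(4 * (x : ZMod (4 * q)))) := by
  have hq := (Fact.out : q.Prime)
  have hq0 := hq.pos
  have hne : (4 * (x : ZMod (4 * q))) ≠ 0 := by
    intro h
    have h3 : ((4 * x : ℕ) : ZMod (4 * q)) = 0 := by push_cast; exact h
    rw [ZMod.natCast_eq_zero_iff] at h3
    have h4 := Nat.dvd_of_mul_dvd_mul_left (by norm_num) h3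
    have h5 := Nat.le_of_dvd (by omega) h4
    omega
  refine ⟨neg_ne_zero.mpr hne, ?_⟩
  have h6 : addOrderOf (-(4 * (x : ZMod (4 * q)))) ∣ q := by
    rw [addOrderOf_neg, addOrderOf_dvd_iff_nsmul_eq_zero, nsmul_eq_mul]
    linear_combination (x : ZMod (4 * q)) * (four_sq (q := q))
  have h7 : addOrderOf (-(4 * (x : ZMod (4 * q)))) = q := by
    rcases (Nat.dvd_prime hq).mp h6 with h | h
    · rw [addOrderOf_neg, AddMonoid.addOrderOf_eq_one_iff] at h
      exact absurd h hne
    · exact h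
  unfold Supp
  rw [h7, hq.primeFactors]

lemma cls_ne_zero [Fact q.Prime] [NeZero (4 * q)] (hq2 : q ≠ 2) : (0 : ZMod (4 * q)) ∉ cls q := by
  have hq := (Fact.out : q.Prime)
  have hodd : q % 2 = 1 := hq.eq_two_or_odd.resolve_left hq2
  have hz : ∀ a : ZMod (4 * q), r4 q a ≠ 0 → a ≠ 0 := fun a h h0 => h (by rw [h0, map_zero])
  unfold cls
  rw [Multiset.mem_add, Multiset.mem_add, Multiset.mem_add]
  rintro (((h | h) | h) | h)
  · obtain ⟨x, _, hx⟩ := Multiset.mem_map.mp h
    exact hz _ (r4_one4 hodd x) hx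
  · obtain ⟨x, hx1, hx⟩ := Multiset.mem_map.mp h
    have h1 := mem_filter.mp (show x ∈ (Icc 1 ((q - 1) / 2)).filter _ from hx1)
    rw [mem_Icc] at h1
    exact (order_four h1.1.1 h1.1.2).1 hx
  · exact hz _ (r4_two hodd) (Multiset.mem_singleton.mp h).symm
  · split_ifs at h
    · exact hz _ (r4_neg hodd) (Multiset.mem_singleton.mp h).symm
    · exact Multiset.notMem_zero _ h

lemma card_J (h : ℕ) : ((Icc 1 h).filter (fun x => h < 2 * x)).card = h - h / 2 := by
  have : (Icc 1 h).filter (fun x => h < 2 * x) = Icc (h / 2 + 1) h := by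
    ext n
    rw [mem_filter, mem_Icc, mem_Icc]
    omega
  rw [this, Nat.card_Icc]
  omega

lemma cls_card (q : ℕ) : Multiset.card (cls q) = (q - 1) / 2 + ((q - 1) / 2 - (q - 1) / 2 / 2) + 1 +
    if q % 4 = 3 then 1 else 0 := by
  unfold cls
  rw [Multiset.card_add, Multiset.card_add, Multiset.card_add, Multiset.card_map,
    Multiset.card_map, Multiset.card_singleton]
  congr 1
  · congr 1
    congr 1
    · show (Icc 1 ((q - 1) / 2)).card = _
      rw [Nat.card_Icc]; omega
    · exact card_J _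
  · split_ifs <;> simp

open scoped Classical in
/-- the character is a Hodge character with an odd number of entries of order `q` -/
theorem cls_spec [Fact q.Prime] (h35 : q % 8 = 3 ∨ q % 8 = 5) :
    IsHodge (4 * q) (cls q) ∧ Odd ((cls q).countP (Supp {q})) := by
  have hq := (Fact.out : q.Prime)
  have hq2 : q ≠ 2 := by omega
  have hodd : q % 2 = 1 := by omega
  have hz : NeZero (4 * q) := ⟨by have := hq.pos; omega⟩
  constructor
  · refine isHodge_of_saw (cls_ne_zero hq2) ?_ ?_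
    · rw [cls_card, Nat.even_iff]
      split_ifs <;> omega
    · intro t
      have h1 := cls_rel (DF_W (p := 1) (Nat.coprime_one_left _) t) hq2
      have h2 : ∀ a : ZMod (4 * q), W 1 a = saw a := by
        intro a
        unfold W
        rw [Nat.cast_one, orderOf_one, sum_range_one, pow_zero, one_mul]
      simp only [h2] at h1
      exact h1
  · have h1 : (cls q).countP (Supp {q}) = (q - 1) / 2 - (q - 1) / 2 / 2 := by
      unfold cls
      rw [Multiset.countP_add, Multiset.countP_add, Multiset.countP_add]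
      have e1 : (((Icc 1 ((q - 1) / 2)).val.map (fun x => one4 q x)).countP (Supp {q})) = 0 := by
        rw [Multiset.countP_eq_zero]
        intro a ha
        obtain ⟨x, _, rfl⟩ := Multiset.mem_map.mp ha
        exact not_supp hq2 (r4_one4 hodd x)
      have e2 : ((((Icc 1 ((q - 1) / 2)).filter (fun x => (q - 1) / 2 < 2 * x)).val.map
          (fun x : ℕ => -(4 * (x : ZMod (4 * q))))).countP (Supp {q})) =
          (q - 1) / 2 - (q - 1) / 2 / 2 := by
        rw [Multiset.countP_eq_card.mpr, Multiset.card_map]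
        · exact card_J _
        · intro a ha
          obtain ⟨x, hx1, rfl⟩ := Multiset.mem_map.mp ha
          have h1 := mem_filter.mp (show x ∈ (Icc 1 ((q - 1) / 2)).filter _ from hx1)
          rw [mem_Icc] at h1
          exact (order_four h1.1.1 h1.1.2).2
      have e3 : (({2 * (q : ZMod (4 * q))} : Multiset (ZMod (4 * q))).countP (Supp {q})) = 0 := by
        rw [Multiset.countP_eq_zero]
        intro a ha
        rw [Multiset.mem_singleton.mp ha]
        exact not_supp hq2 (r4_two hodd)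
      have e4 : ((if q % 4 = 3 then {-(q : ZMod (4 * q))} else 0 :
          Multiset (ZMod (4 * q))).countP (Supp {q})) = 0 := by
        rw [Multiset.countP_eq_zero]
        intro a ha
        split_ifs at ha
        · rw [Multiset.mem_singleton.mp ha]
          exact not_supp hq2 (r4_neg hodd)
        · exact absurd ha (Multiset.notMem_zero _)
      rw [e1, e2, e3, e4]
      omega
    rw [h1, Nat.odd_iff]
    omega

end props

end Pool.Agent.J4.H6.OC
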