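import Pool.Agent.J4.H6.OC.Cls
import Pool.Agent.J4.H6.SI.Fin

/-!
# One Hodge character decides the Tate conjecture in all characteristics
-/

set_option autoImplicit false
set_option linter.unusedSectionVars false

namespace Pool.Agent.J4.H6.OC

open Finset Pool.Agent.H916R2 Pool.Agent.H916T Pool.Agent.H916U Pool.Agent.H916Z Pool.Agent.H916Q
  Pool.Agent.H916Y Pool.Agent.TH540 Pool.Agent.N214.FT Pool.Agent.J4.H6.SI

variable {p : ℕ}

lemma hodge_tate {m : ℕ} [NeZero m] (hpm : p.Coprime m) {s : Multiset (ZMod m)}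
    (hs : IsHodge m s) : IsTate p m s := by
  obtain ⟨h0, he, hsum, hH⟩ := hs
  refine ⟨h0, he, hsum, fun t => ?_⟩
  have hu : IsUnit (p : ZMod m) := isUnit_p hpm
  rw [mul_sum]
  have h1 : ∀ j ∈ range (orderOf (p : ZMod m)),
      2 * (s.map fun a => ((p : ZMod m) ^ j * ((t : ZMod m) * a)).val).sum =
        m * Multiset.card s := by
    intro j _
    have h2 := hH (hu.unit ^ j * t)
    simp only [Units.val_mul, Units.val_pow_eq_pow_val, IsUnit.unit_spec, mul_assoc] at h2
    exact h2
  rw [sum_congr rfl h1, sum_const, card_range, smul_eq_mul]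

lemma isTate_msum' {m : ℕ} [NeZero m] (hpm : p.Coprime m) (l : Multiset (Multiset (ZMod m)))
    (hl : ∀ x ∈ l, IsTate p m x) : IsTate p m l.sum := isTate_msum hpm l hl

lemma map_neg_neg {m : ℕ} (x : Multiset (ZMod m)) : (x.map Neg.neg).map Neg.neg = x := by
  rw [Multiset.map_map]
  simp

open scoped Classical in
lemma countP_neg {m : ℕ} (x : Multiset (ZMod m)) (S : Finset ℕ) :
    (x.map Neg.neg).countP (Supp S) = x.countP (Supp S) := by
  rw [Multiset.countP_map, ← Multiset.countP_eq_card_filter]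
  apply Multiset.countP_congr rfl
  intro a _
  unfold Supp
  rw [addOrderOf_neg]

open scoped Classical in
/-- **Correction by given characters**: let `l` be Tate characters of degree `k m` such that the
supports are dead, or even in the union of `s` and `l`, or can be corrected by surfaces. -/
theorem kill {m k k2 : ℕ} (hp : p.Prime) (hm : 0 < m) (hpm : p.Coprime m) (hk : 0 < k)
    (hpk : p.Coprime k) (hk2 : 0 < k2) (hpk2 : p.Coprime k2) {s : Multiset (ZMod m)}
    (hs : IsTate p m s) (hne : s ≠ 0)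
    (l : Multiset (Multiset (ZMod (k * m)))) (hl : ∀ x ∈ l, IsTate p (k * m) x)
    (H : ∀ S : Finset ℕ, S.Nonempty → 2 ∉ S → S ⊆ (k * m).primeFactors → ¬ Dead p S →
      Even ((s.map (iota k : ZMod m → ZMod (k * m)) + l.sum).countP (Supp S)) ∨
        ∀ (_ : NeZero (k2 * (k * m))) (u : ZMod (k2 * (k * m))),
          addOrderOf u = ∏ q ∈ S, q → Fix p u) :
    ∃ N : ℕ, 0 < N ∧ p.Coprime N ∧ ∀ M : ℕ, N * (k * m) = M →
      H916T.Generated M (fun t => ZBase p M t ∨
        ∃ x ∈ l, t = (x.map Neg.neg).map (iota N : ZMod (k * m) → ZMod M))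
        (s.map (iota (N * k) : ZMod m → ZMod M)) := by
  have hz : NeZero m := ⟨hm.ne'⟩
  have hkm : 0 < k * m := Nat.mul_pos hk hm
  have hzk : NeZero (k * m) := ⟨hkm.ne'⟩
  have hpkm : p.Coprime (k * m) := Nat.Coprime.mul_right hpk hpm
  have hs' := isTate_iota (k := k) rfl hpkm hs
  have hT : IsTate p (k * m) (s.map (iota k : ZMod m → ZMod (k * m)) + l.sum) :=
    isTate_add hpkm hs' (isTate_msum hpkm l hl)
  have hne' : s.map (iota k : ZMod m → ZMod (k * m)) + l.sum ≠ 0 := by
    intro h
    have h2 := congrArg Multiset.card h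
    rw [Multiset.card_add, Multiset.card_zero, Multiset.card_map] at h2
    exact hne (Multiset.card_eq_zero.mp (by omega))
  obtain ⟨N, hN, hpN, H1⟩ := main_even hp hkm hpkm hk2 hpk2 hT hne' H
  refine ⟨N, hN, hpN, ?_⟩
  intro M hM
  have h2 := H1 M hM
  have hM0 : 0 < M := by rw [← hM]; exact Nat.mul_pos hN hkm
  have hzM : NeZero M := ⟨hM0.ne'⟩
  rw [Multiset.map_add, map_multiset_sum] at h2
  have h3 : (s.map (iota k : ZMod m → ZMod (k * m))).map (iota N : ZMod (k * m) → ZMod M) =
      s.map (iota (N * k) : ZMod m → ZMod M) := by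
    rw [Multiset.map_map]
    exact Multiset.map_congr rfl fun b _ => iota_comp hM b
  rw [h3] at h2
  refine remove_base (l.map fun x => x.map (iota N : ZMod (k * m) → ZMod M)) ?_ _
    (generated_mono (base := ZBase p M) (fun t ht => Or.inl ht) h2)
  intro x hx
  obtain ⟨y, hy, rfl⟩ := Multiset.mem_map.mp hx
  refine Or.inr ⟨y, hy, ?_⟩
  rw [Multiset.map_map, Multiset.map_map]
  refine Multiset.map_congr rfl fun a _ => ?_
  simp only [Function.comp_apply]
  rw [iota_neg hM]

open scoped Classical in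
/-- **One Hodge character decides.** -/
theorem one_class {q m : ℕ} (hp : p.Prime) (hq : q.Prime) (h35 : q % 8 = 3 ∨ q % 8 = 5)
    (hm : 0 < m) (hpm : p.Coprime m) (hdeg : ∀ r : ℕ, r.Prime → r ∣ m → r = 2 ∨ r = q)
    {s : Multiset (ZMod m)} (hs : IsTate p m s) (hne : s ≠ 0) :
    ∃ N : ℕ, 0 < N ∧ p.Coprime N ∧ ∀ M : ℕ, N * m = M →
      H916T.Generated M (fun t => ZBase p M t ∨
        ∃ k : ℕ, k * (4 * q) = M ∧ t = (cls q).map (iota k : ZMod (4 * q) → ZMod M))
        (s.map (iota N : ZMod m → ZMod M)) := by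
  have hFq : Fact q.Prime := ⟨hq⟩
  have hz : NeZero m := ⟨hm.ne'⟩
  have hz4 : NeZero (4 * q) := ⟨by have := hq.pos; omega⟩
  have hq2 : q ≠ 2 := by omega
  have hsub : ∀ k : ℕ, (∀ r : ℕ, r.Prime → r ∣ k → r = 2 ∨ r = q) → ∀ S : Finset ℕ, S.Nonempty →
      2 ∉ S → S ⊆ (k * m).primeFactors → S = {q} := by
    intro k hk S hne h2 hS
    refine Finset.eq_singleton_iff_nonempty_unique_mem.mpr ⟨hne, fun r hr => ?_⟩
    have h3 := hS hr
    have hrp := Nat.prime_of_mem_primeFactors h3
    have h4 := (hrp.dvd_mul).mp (Nat.dvd_of_mem_primeFactors h3)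
    have h5 : r = 2 ∨ r = q := by
      rcases h4 with h | h
      · exact hk r hrp h
      · exact hdeg r hrp h
    exact h5.resolve_left fun h => h2 (h ▸ hr)
  by_cases hD : Dead p {q} ∨ Even (s.countP (Supp {q}))
  · obtain ⟨N, hN, hpN, H⟩ := kill (k := 1) (k2 := 1) hp hm hpm one_pos (Nat.coprime_one_right _)
      one_pos (Nat.coprime_one_right _) hs hne 0 (by simp) (by
        intro S hSne h2S hSm hnD
        have hSq := hsub 1 (fun r hr h1 => absurd (Nat.dvd_one.mp h1) hr.one_lt.ne') S hSne h2S hSm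
        subst hSq
        left
        rw [Multiset.sum_zero, add_zero]
        have hz1 : NeZero (1 * m) := ⟨by rw [one_mul]; exact hm.ne'⟩
        rw [countP_iota (k := 1) rfl]
        exact hD.resolve_left hnD)
    refine ⟨N, hN, hpN, fun M hM => ?_⟩
    have h2 := H M (by rw [one_mul]; exact hM)
    rw [mul_one] at h2
    refine generated_mono ?_ h2
    rintro t (ht | ⟨x, hx, _⟩)
    · exact Or.inl ht
    · exact absurd hx (Multiset.notMem_zero _)
  · push Not at hD
    obtain ⟨hnD, hodd⟩ := hD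
    rw [Nat.not_even_iff_odd] at hodd
    -- the prime `q` divides `m`
    have hqm : q ∣ m := by
      have h1 : 0 < s.countP (Supp {q}) := hodd.pos
      obtain ⟨a, _, ha⟩ := Multiset.countP_pos.mp h1
      exact Nat.dvd_of_mem_primeFactors (supp_sub ha (mem_singleton_self q))
    have hpq : (p : ZMod q) ≠ 0 := p_ne hpm hqm
    have ho : Odd (orderOf (p : ZMod q)) := by
      rw [← Nat.not_even_iff_odd]
      exact fun he => hnD (dead_q hpq he)
    have hp2 : p ≠ 2 := p_ne_two h35 (square_of_odd ho)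
    have hp4q : p.Coprime (4 * q) := by
      have h1 : p.Coprime 2 := (Nat.coprime_primes hp Nat.prime_two).mpr hp2
      exact Nat.Coprime.mul_right (Nat.Coprime.mul_right h1 h1) (Nat.Coprime.coprime_dvd_right hqm hpm)
    have h4q : 0 < 4 * q := by have := hq.pos; omega
    have hzM : NeZero (4 * q * m) := ⟨(Nat.mul_pos h4q hm).ne'⟩
    have hpM : p.Coprime (4 * q * m) := Nat.Coprime.mul_right hp4q hpm
    obtain ⟨hH, hcodd⟩ := cls_spec (q := q) h35
    set c : Multiset (ZMod (4 * q * m)) :=
      (cls q).map (iota m : ZMod (4 * q) → ZMod (4 * q * m)) with hc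
    have hcm : m * (4 * q) = 4 * q * m := mul_comm _ _
    have hcT : IsTate p (4 * q * m) c := isTate_iota hcm hpM (hodge_tate hp4q hH)
    obtain ⟨N, hN, hpN, H⟩ := kill (k := 4 * q) (k2 := 1) hp hm hpm h4q hp4q
      one_pos (Nat.coprime_one_right _) hs hne {c.map Neg.neg} (by
        intro x hx
        rw [Multiset.mem_singleton.mp hx]
        exact hcT.neg hpM) (by
        intro S hSne h2S hSm _
        have hSq := hsub (4 * q) (by
          intro r hr h1
          rcases (hr.dvd_mul).mp h1 with h | h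
          · left
            have h2 : r ∣ 2 ^ 2 := h
            exact (Nat.prime_dvd_prime_iff_eq hr Nat.prime_two).mp (hr.dvd_of_dvd_pow h2)
          · right
            exact (Nat.prime_dvd_prime_iff_eq hr hq).mp h) S hSne h2S hSm
        subst hSq
        left
        rw [Multiset.sum_singleton, Multiset.countP_add, countP_neg, countP_iota rfl, hc,
          countP_iota hcm]
        exact hodd.add_odd hcodd)
    refine ⟨N * (4 * q), Nat.mul_pos hN h4q, Nat.Coprime.mul_right hpN hp4q, ?_⟩
    intro M hM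
    have h2 := H M (by rw [← hM]; ring)
    refine generated_mono ?_ h2
    rintro t (ht | ⟨x, hx, ht⟩)
    · exact Or.inl ht
    · right
      refine ⟨N * m, by rw [← hM]; ring, ?_⟩
      rw [ht, Multiset.mem_singleton.mp hx, map_neg_neg, hc, Multiset.map_map]
      exact Multiset.map_congr rfl fun b _ => iota_comp (by rw [← hM]; ring) b

end Pool.Agent.J4.H6.OC
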