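import Pool.Agent.J4.H6.OC.One

/-!
# The primes two, three, and eleven or thirteen
-/

set_option autoImplicit false
set_option linter.unusedSectionVars false

namespace Pool.Agent.J4.H6.OC

open Finset Pool.Agent.H916R2 Pool.Agent.H916T Pool.Agent.H916U Pool.Agent.H916Z Pool.Agent.H916Q
  Pool.Agent.H916Y Pool.Agent.TH540 Pool.Agent.N214.FT Pool.Agent.J4.H6.SI

variable {p : ℕ}

/-- the base with one more character -/
def QBase (p q M : ℕ) (t : Multiset (ZMod M)) : Prop :=
  ZBase p M t ∨ ∃ k : ℕ, k * (4 * q) = M ∧ t = (cls q).map (iota k : ZMod (4 * q) → ZMod M)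

/-- from the union with given characters to the character itself -/
theorem kill0 {m k : ℕ} (hm : 0 < m) (hk : 0 < k) {s : Multiset (ZMod m)}
    (l : Multiset (Multiset (ZMod (k * m))))
    (H : Concl p (k * m) (s.map (iota k : ZMod m → ZMod (k * m)) + l.sum)) :
    ∃ N : ℕ, 0 < N ∧ p.Coprime N ∧ ∀ M : ℕ, N * (k * m) = M →
      H916T.Generated M (fun t => ZBase p M t ∨
        ∃ x ∈ l, t = (x.map Neg.neg).map (iota N : ZMod (k * m) → ZMod M))
        (s.map (iota (N * k) : ZMod m → ZMod M)) := by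
  have hkm : 0 < k * m := Nat.mul_pos hk hm
  have hzk : NeZero (k * m) := ⟨hkm.ne'⟩
  obtain ⟨N, hN, hpN, H1⟩ := H
  refine ⟨N, hN, hpN, ?_⟩
  intro M hM
  have h2 := H1 M hM
  rw [Multiset.map_add, map_multiset_sum] at h2
  have h3 : (s.map (iota k : ZMod m → ZMod (k * m))).map (iota N : ZMod (k * m) → ZMod M) =
      s.map (iota (N * k) : ZMod m → ZMod M) := by
    rw [Multiset.map_map]
    exact Multiset.map_congr rfl fun b _ => iota_comp hM b
  rw [h3] at h2
  refine remove_base (l.map fun x => x.map (iota N : ZMod (k * m) → ZMod M)) ?_ _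
    (generated_mono (base := ZBase p M) (fun t ht => Or.inl ht) h2)
  intro x hx
  obtain ⟨y, hy, rfl⟩ := Multiset.mem_map.mp hx
  refine Or.inr ⟨y, hy, ?_⟩
  rw [Multiset.map_map, Multiset.map_map]
  refine Multiset.map_congr rfl fun a _ => ?_
  simp only [Function.comp_apply]
  rw [iota_neg hM]

open scoped Classical in
/-- correction by the class of `q` -/
theorem kill1 {m k q : ℕ} [Fact q.Prime] (h35 : q % 8 = 3 ∨ q % 8 = 5) (hm : 0 < m)
    (hpm : p.Coprime m) (hk : 0 < k) (hpk : p.Coprime k) (hqk : 4 * q ∣ k) {s : Multiset (ZMod m)}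
    (hs : IsTate p m s) (hne : s ≠ 0)
    (H : ∀ x : Multiset (ZMod (k * m)), IsTate p (k * m) x → x ≠ 0 →
      Even (x.countP (Supp {q})) → Concl p (k * m) x) :
    ∃ N : ℕ, 0 < N ∧ p.Coprime N ∧ ∀ M : ℕ, N * m = M →
      H916T.Generated M (QBase p q M) (s.map (iota N : ZMod m → ZMod M)) := by
  have hq := (Fact.out : q.Prime)
  have h4q : 0 < 4 * q := by have := hq.pos; omega
  have hz : NeZero m := ⟨hm.ne'⟩
  have hz4 : NeZero (4 * q) := ⟨h4q.ne'⟩
  have hkm : 0 < k * m := Nat.mul_pos hk hm
  have hzk : NeZero (k * m) := ⟨hkm.ne'⟩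
  have hpkm : p.Coprime (k * m) := Nat.Coprime.mul_right hpk hpm
  have hs' := isTate_iota (k := k) rfl hpkm hs
  obtain ⟨k', hk'⟩ := hqk
  have hcm : (k' * m) * (4 * q) = k * m := by rw [hk']; ring
  obtain ⟨hH, hcodd⟩ := cls_spec (q := q) h35
  have hp4q : p.Coprime (4 * q) := Nat.Coprime.coprime_dvd_right ⟨k', hk'⟩ hpk
  set c : Multiset (ZMod (k * m)) :=
    (cls q).map (iota (k' * m) : ZMod (4 * q) → ZMod (k * m)) with hc
  have hcT : IsTate p (k * m) c := isTate_iota hcm hpkm (hodge_tate hp4q hH)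
  have hne' : ∀ l : Multiset (Multiset (ZMod (k * m))),
      s.map (iota k : ZMod m → ZMod (k * m)) + l.sum ≠ 0 := by
    intro l h
    have h2 := congrArg Multiset.card h
    rw [Multiset.card_add, Multiset.card_zero, Multiset.card_map] at h2
    exact hne (Multiset.card_eq_zero.mp (by omega))
  have key : ∃ l : Multiset (Multiset (ZMod (k * m))), (∀ x ∈ l, x = c.map Neg.neg) ∧
      Even ((s.map (iota k : ZMod m → ZMod (k * m)) + l.sum).countP (Supp {q})) := by
    by_cases he : Even (s.countP (Supp {q}))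
    · refine ⟨0, by simp, ?_⟩
      rw [Multiset.sum_zero, add_zero, countP_iota rfl]
      exact he
    · refine ⟨{c.map Neg.neg}, fun x hx => Multiset.mem_singleton.mp hx, ?_⟩
      rw [Nat.not_even_iff_odd] at he
      rw [Multiset.sum_singleton, Multiset.countP_add, countP_neg, countP_iota rfl, hc,
        countP_iota hcm]
      exact he.add_odd hcodd
  obtain ⟨l, hl, heven⟩ := key
  have hT : IsTate p (k * m) (s.map (iota k : ZMod m → ZMod (k * m)) + l.sum) := by
    refine isTate_add hpkm hs' (isTate_msum hpkm l ?_)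
    intro x hx
    rw [hl x hx]
    exact hcT.neg hpkm
  obtain ⟨N, hN, hpN, H1⟩ := kill0 hm hk l (H _ hT (hne' l) heven)
  refine ⟨N * k, Nat.mul_pos hN hk, Nat.Coprime.mul_right hpN hpk, ?_⟩
  intro M hM
  have hM' : N * (k * m) = M := by rw [← hM]; ring
  refine generated_mono ?_ (H1 M hM')
  rintro t (ht | ⟨x, hx, ht⟩)
  · exact Or.inl ht
  · right
    refine ⟨N * (k' * m), by rw [mul_assoc, hcm, hM'], ?_⟩
    rw [ht, hl x hx, map_neg_neg, hc, Multiset.map_map]
    exact Multiset.map_congr rfl fun b _ => iota_comp hM' b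

open scoped Classical in
/-- evenness for the support `{3, 13}` -/
lemma even_39 {M : ℕ} (hM : 0 < M) (hpM : p.Coprime M) {x : Multiset (ZMod M)} (hx : Rel0 p x)
    (h39 : 39 ∣ M) (hprM : ∀ q, q.Prime → q ∣ M → q = 2 ∨ q = 3 ∨ q = 13)
    (hJ : jacobiSym p 39 = 1) : Even (x.countP (Supp {3, 13})) := by
  have hz : NeZero M := ⟨hM.ne'⟩
  have hp3 : 3 ∈ M.primeFactors := mem_pf hM (by norm_num) (Dvd.dvd.trans (by norm_num) h39)
  have hp13 : 13 ∈ M.primeFactors := mem_pf hM (by norm_num) (Dvd.dvd.trans (by norm_num) h39)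
  have hprod : ∏ q ∈ ({3, 13} : Finset ℕ), q = 39 := by decide
  refine FR.even_supp hpM hx ?_ (by decide) ⟨3, by decide⟩ ?_ ?_ ?_ ?_ ?_
  · intro q hq
    simp only [mem_insert, mem_singleton] at hq
    rcases hq with rfl | rfl
    · exact hp3
    · exact hp13
  · rw [hprod]; norm_num
  · rw [hprod]; exact hJ
  · intro _
    rw [hprod]; norm_num
  · intro j hj hj2 hjS
    exfalso
    simp only [mem_insert, mem_singleton, not_or] at hjS
    rcases hprM j (Nat.prime_of_mem_primeFactors hj) (Nat.dvd_of_mem_primeFactors hj) with h | h | h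
    · exact hj2 h
    · exact hjS.1 h
    · exact hjS.2 h
  · intro V hV h2V
    by_contra hodd
    have hVm := (FR.supp_primes' hodd).2.1
    apply hV.2
    intro r hr
    have h1 := hVm hr
    simp only [mem_insert, mem_singleton]
    rcases hprM r (Nat.prime_of_mem_primeFactors h1) (Nat.dvd_of_mem_primeFactors h1) with h | h | h
    · exact absurd (h ▸ hr) h2V
    · exact Or.inl h
    · exact Or.inr h

lemma self_iota {m : ℕ} [NeZero m] (x : Multiset (ZMod m)) :
    x.map (iota 1 : ZMod m → ZMod m) = x := by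
  conv_rhs => rw [← Multiset.map_id x]
  refine Multiset.map_congr rfl fun a _ => ?_
  unfold iota
  rw [one_mul, ZMod.natCast_zmod_val]
  rfl

open scoped Classical in
/-- the primes two, three and eleven -/
theorem with_eleven {m : ℕ} (hp : p.Prime) (hm : 0 < m) (hpm : p.Coprime m)
    (hpr : ∀ q, q.Prime → q ∣ m → q = 2 ∨ q = 3 ∨ q = 11) {s : Multiset (ZMod m)}
    (hs : IsTate p m s) (hne : s ≠ 0) :
    ∃ N : ℕ, 0 < N ∧ p.Coprime N ∧ ∀ M : ℕ, N * m = M →
      H916T.Generated M (QBase p 11 M) (s.map (iota N : ZMod m → ZMod M)) := by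
  have hz : NeZero m := ⟨hm.ne'⟩
  have hF11 : Fact (Nat.Prime 11) := ⟨by norm_num⟩
  have hself : ∀ q, q.Prime → q ∣ m → q ≠ p := by
    rintro q hq h rfl
    exact (hp.coprime_iff_not_dvd.mp hpm) h
  have hmono : Concl p m s → ∃ N : ℕ, 0 < N ∧ p.Coprime N ∧ ∀ M : ℕ, N * m = M →
      H916T.Generated M (QBase p 11 M) (s.map (iota N : ZMod m → ZMod M)) := by
    rintro ⟨N, hN, hpN, H⟩
    exact ⟨N, hN, hpN, fun M hM => generated_mono (fun t ht => Or.inl ht) (H M hM)⟩
  by_cases h2 : p = 2
  · subst h2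
    apply hmono
    exact Fixed.finish (q1 := 3) (q2 := 11) (G := []) (k := 1) hp hm (by norm_num) (one_mul m)
      hpm hs hne ⟨0, by simp, by simp⟩ hpr
      (Or.inl (dead_of (j := 1) (prod_sing 3) (by norm_num)))
      (Or.inl (dead_of (j := 5) (prod_sing 11) (by norm_num)))
      (Or.inl (dead_of (n := 33) (j := 5) (by decide) (by norm_num)))
  by_cases h3 : p = 3
  · refine one_class hp (by norm_num) (Or.inl (by norm_num)) hm hpm ?_ hs hne
    intro r hr h
    rcases hpr r hr h with h' | h' | h'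
    · exact Or.inl h'
    · exact absurd (h'.trans h3.symm) (hself r hr h)
    · exact Or.inr h'
  by_cases h11 : p = 11
  · subst h11
    apply hmono
    have hM : 0 < 12 * m := by omega
    have hpM : Nat.Coprime 11 (12 * m) := Nat.Coprime.mul_right (by norm_num) hpm
    have F := (Fixed.start (p := 11) (s.map (iota 12 : ZMod m → ZMod (12 * m))) [] (by simp)).step
      (k := m) hM (mul_comm _ _) hpM (t3 (p := 11) (by norm_num)) {3} (by decide) (by simp)
    refine F.finish1 (q := 3) hp hm (by norm_num) rfl hpM hs hne ?_ (Or.inr (by simp))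
    refine dvd_cases (fun q hq h => ?_) (fun q hq h => ?_)
    · rcases hpr q hq h with h' | h' | h'
      · exact Or.inl h'
      · exact Or.inr h'
      · exact absurd h' (hself q hq h)
    · have := prime_dvd_list hq [2, 2, 3] (by simpa using h) (by simp; norm_num)
      simp at this; tauto
  have hp132 : p.Coprime 132 := coprime_of_cases hp [2, 2, 3, 11] (by norm_num)
    (by simp; norm_num) (by simp; tauto)
  have hp66 : p.Coprime 66 := Nat.Coprime.coprime_dvd_right (by norm_num) hp132
  have hp12 : p.Coprime 12 := Nat.Coprime.coprime_dvd_right (by norm_num) hp132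
  have hM : 0 < 132 * m := by omega
  have hzM : NeZero (132 * m) := ⟨hM.ne'⟩
  have hpM : Nat.Coprime p (132 * m) := Nat.Coprime.mul_right hp132 hpm
  have hprM : ∀ q, q.Prime → q ∣ 132 * m → q = 2 ∨ q = 3 ∨ q = 11 :=
    dvd_cases hpr (by
      intro q hq h
      have := prime_dvd_list hq [2, 2, 3, 11] (by simpa using h) (by simp; norm_num)
      simp at this; tauto)
  refine kill1 (q := 11) (k := 132) (Or.inl (by norm_num)) hm hpm (by norm_num) hp132
    (by norm_num) hs hne ?_
  intro x hx hxne heven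
  have F0 : Fixed p (132 * m) (x.map (iota 1 : ZMod (132 * m) → ZMod (132 * m))) [{11}] := by
    rw [self_iota]
    apply Fixed.start
    intro S hS
    rw [List.mem_singleton.mp hS]
    exact heven
  have F2 := F0.step (k := 2 * m) hM (by ring) hpM (t311 hp66) {3, 11} (by decide) (by decide)
  have F3 := F2.step (k := 11 * m) hM (by ring) hpM (t3 hp12) {3} (by decide) (by decide)
  exact F3.finish (q1 := 3) (q2 := 11) hp hM (by norm_num) (one_mul _) hpM hx hxne hprM
    (Or.inr (by simp)) (Or.inr (by simp)) (Or.inr (by simp))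

open scoped Classical in
/-- the primes two, three and thirteen -/
theorem with_thirteen {m : ℕ} (hp : p.Prime) (hm : 0 < m) (hpm : p.Coprime m)
    (hpr : ∀ q, q.Prime → q ∣ m → q = 2 ∨ q = 3 ∨ q = 13) {s : Multiset (ZMod m)}
    (hs : IsTate p m s) (hne : s ≠ 0) :
    ∃ N : ℕ, 0 < N ∧ p.Coprime N ∧ ∀ M : ℕ, N * m = M →
      H916T.Generated M (QBase p 13 M) (s.map (iota N : ZMod m → ZMod M)) := by
  have hz : NeZero m := ⟨hm.ne'⟩
  have hF13 : Fact (Nat.Prime 13) := ⟨by norm_num⟩
  have hself : ∀ q, q.Prime → q ∣ m → q ≠ p := by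
    rintro q hq h rfl
    exact (hp.coprime_iff_not_dvd.mp hpm) h
  have hmono : Concl p m s → ∃ N : ℕ, 0 < N ∧ p.Coprime N ∧ ∀ M : ℕ, N * m = M →
      H916T.Generated M (QBase p 13 M) (s.map (iota N : ZMod m → ZMod M)) := by
    rintro ⟨N, hN, hpN, H⟩
    exact ⟨N, hN, hpN, fun M hM => generated_mono (fun t ht => Or.inl ht) (H M hM)⟩
  by_cases h2 : p = 2
  · subst h2
    apply hmono
    have hM : 0 < 39 * m := by omega
    have hzM : NeZero (39 * m) := ⟨hM.ne'⟩
    have hpM : Nat.Coprime 2 (39 * m) := Nat.Coprime.mul_right (by norm_num) hpm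
    have hprM : ∀ q, q.Prime → q ∣ 39 * m → q = 2 ∨ q = 3 ∨ q = 13 :=
      dvd_cases hpr (by
        intro q hq h
        have := prime_dvd_list hq [3, 13] (by simpa using h) (by simp; norm_num)
        simp at this; tauto)
    refine Fixed.finish (q1 := 3) (q2 := 13) (G := [{3, 13}]) hp hm (by norm_num) rfl hpM hs hne
      ?_ hprM (Or.inl (dead_of (j := 1) (prod_sing 3) (by norm_num)))
      (Or.inl (dead_of (j := 6) (prod_sing 13) (by norm_num))) (Or.inr (by simp))
    apply Fixed.start
    intro S hS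
    rw [List.mem_singleton.mp hS]
    exact even_39 hM hpM (rel0_iota rfl hpm hs) (Dvd.intro m rfl) hprM (by norm_num)
  by_cases h3 : p = 3
  · refine one_class hp (by norm_num) (Or.inr (by norm_num)) hm hpm ?_ hs hne
    intro r hr h
    rcases hpr r hr h with h' | h' | h'
    · exact Or.inl h'
    · exact absurd (h'.trans h3.symm) (hself r hr h)
    · exact Or.inr h'
  by_cases h13 : p = 13
  · subst h13
    apply hmono
    have hM : 0 < 12 * m := by omega
    have hpM : Nat.Coprime 13 (12 * m) := Nat.Coprime.mul_right (by norm_num) hpm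
    have F := (Fixed.start (p := 13) (s.map (iota 12 : ZMod m → ZMod (12 * m))) [] (by simp)).step
      (k := m) hM (mul_comm _ _) hpM (t3 (p := 13) (by norm_num)) {3} (by decide) (by simp)
    refine F.finish1 (q := 3) hp hm (by norm_num) rfl hpM hs hne ?_ (Or.inr (by simp))
    refine dvd_cases (fun q hq h => ?_) (fun q hq h => ?_)
    · rcases hpr q hq h with h' | h' | h'
      · exact Or.inl h'
      · exact Or.inr h'
      · exact absurd h' (hself q hq h)
    · have := prime_dvd_list hq [2, 2, 3] (by simpa using h) (by simp; norm_num)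
      simp at this; tauto
  have hp156 : p.Coprime 156 := coprime_of_cases hp [2, 2, 3, 13] (by norm_num)
    (by simp; norm_num) (by simp; tauto)
  have hp39 : p.Coprime 39 := Nat.Coprime.coprime_dvd_right (by norm_num) hp156
  have hp12 : p.Coprime 12 := Nat.Coprime.coprime_dvd_right (by norm_num) hp156
  have hM : 0 < 156 * m := by omega
  have hzM : NeZero (156 * m) := ⟨hM.ne'⟩
  have hpM : Nat.Coprime p (156 * m) := Nat.Coprime.mul_right hp156 hpm
  have hprM : ∀ q, q.Prime → q ∣ 156 * m → q = 2 ∨ q = 3 ∨ q = 13 :=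
    dvd_cases hpr (by
      intro q hq h
      have := prime_dvd_list hq [2, 2, 3, 13] (by simpa using h) (by simp; norm_num)
      simp at this; tauto)
  have h39M : 39 ∣ 156 * m := Dvd.dvd.mul_right (by norm_num) m
  have hcas : ∀ r < 39, Nat.Coprime r 39 →
      r ∈ [1, 16, 22, 4, 10, 25, 2, 5, 8, 11, 20, 32] ∨
      r ∈ [7, 19, 28, 31, 34, 37] ∨ r ∈ [14, 29, 35] ∨ r ∈ [17, 23, 38] := by
    intro r hr
    interval_cases r <;> decide
  have h39 := hcas (p % 39) (Nat.mod_lt _ (by norm_num)) (mod_coprime hp39)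
  have hJ39 : ∀ c, p % 39 = c → jacobiSym (c : ℤ) 39 = 1 → jacobiSym p 39 = 1 := by
    intro c hc h
    rw [jac_of_mod hc]; exact h
  refine kill1 (q := 13) (k := 156) (Or.inr (by norm_num)) hm hpm (by norm_num) hp156
    (by norm_num) hs hne ?_
  intro x hx hxne heven
  have hxr : Rel0 p x := fun t => hx.W_sum hpM t
  have F0 : Fixed p (156 * m) (x.map (iota 1 : ZMod (156 * m) → ZMod (156 * m))) [{13}] := by
    rw [self_iota]
    apply Fixed.start
    intro S hS
    rw [List.mem_singleton.mp hS]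
    exact heven
  have fin : ∀ G, Fixed p (156 * m) (x.map (iota 1 : ZMod (156 * m) → ZMod (156 * m))) G →
      ({3} ∈ G) → (Dead p {13} ∨ {13} ∈ G) → (Dead p {3, 13} ∨ {3, 13} ∈ G) →
      Concl p (156 * m) x := by
    intro G hG h1 h2 h3
    exact hG.finish (q1 := 3) (q2 := 13) hp hM (by norm_num) (one_mul _) hpM hx hxne hprM
      (Or.inr h1) h2 h3
  rcases h39 with h | h | h | h
  · -- the law
    have hJ : jacobiSym p 39 = 1 := by
      simp only [List.mem_cons, List.not_mem_nil, or_false] at h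
      rcases h with h | h | h | h | h | h | h | h | h | h | h | h <;>
        exact hJ39 _ h (by norm_num)
    have F1 : Fixed p (156 * m) (x.map (iota 1 : ZMod (156 * m) → ZMod (156 * m)))
        [{13}, {3, 13}] := by
      rw [self_iota]
      apply Fixed.start
      intro S hS
      simp only [List.mem_cons, List.not_mem_nil, or_false] at hS
      rcases hS with rfl | rfl
      · exact heven
      · exact even_39 hM hpM hxr h39M hprM hJ
    have F2 := F1.step (k := 13 * m) hM (by ring) hpM (t3 hp12) {3} (by decide) (by decide)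
    exact fin _ F2 (by simp) (Or.inr (by simp)) (Or.inr (by simp))
  · have hD : Dead p {13} := by
      have hc : ∀ r ∈ [7, 19, 28, 31, 34, 37], (r ^ 6 + 1) % 13 = 0 := by decide
      refine dead_of (j := 6) (prod_sing 13) ?_
      have h1 : p % 13 = (p % 39) % 13 := (Nat.mod_mod_of_dvd p (by norm_num : 13 ∣ 39)).symm
      have h2 := hc _ h
      rw [Nat.add_mod, Nat.pow_mod] at h2 ⊢
      rw [h1]
      exact h2
    have F1 := (Fixed.start (p := p) (x.map (iota 1 : ZMod (156 * m) → ZMod (156 * m))) []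
      (by simp)).step (k := 4 * m) hM (by ring) hpM (v1 hp39 h) {3, 13} (by decide) (by simp)
    have F2 := F1.step (k := 13 * m) hM (by ring) hpM (t3 hp12) {3} (by decide) (by decide)
    exact fin _ F2 (by simp) (Or.inl hD) (Or.inr (by simp))
  · have F1 := F0.step (k := 4 * m) hM (by ring) hpM (v2 hp39 h) {3, 13} (by decide) (by decide)
    have F2 := F1.step (k := 13 * m) hM (by ring) hpM (t3 hp12) {3} (by decide) (by decide)
    exact fin _ F2 (by simp) (Or.inr (by simp)) (Or.inr (by simp))
  · have hD : Dead p {3, 13} := by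
      have hc : ∀ r ∈ [17, 23, 38], (r ^ 3 + 1) % 39 = 0 := by decide
      refine dead_of (n := 39) (j := 3) (by decide) ?_
      have h2 := hc _ h
      rw [Nat.add_mod, Nat.pow_mod] at h2 ⊢
      rw [Nat.mod_mod] at h2
      exact h2
    have F2 := F0.step (k := 13 * m) hM (by ring) hpM (t3 hp12) {3} (by decide) (by decide)
    exact fin _ F2 (by simp) (Or.inr (by simp)) (Or.inl hD)

end Pool.Agent.J4.H6.OC
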